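import Mathlib

set_option autoImplicit false
set_option maxHeartbeats 400000

open MeasureTheory Filter Topology Complex Finset

namespace Pool.Agent.Results.MP_831e37_an.Exists

/-- Euclidean space -/
abbrev E (d : ℕ) : Type := EuclideanSpace ℝ (Fin d)

/-- a complex Radon measure, written as a locally integrable density times a locally finite
positive measure -/
structure RM (d : ℕ) where
  m : Measure (E d)
  h : E d → ℂ
  lf : IsLocallyFiniteMeasure m
  li : LocallyIntegrable h m

variable {d : ℕ}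

/-- the value of the measure on a function -/
noncomputable def act (μ : RM d) (f : E d → ℂ) : ℂ := ∫ x, f x * μ.h x ∂μ.m

/-- integrability for the total variation -/
def Int (μ : RM d) (f : E d → ℂ) : Prop := Integrable (fun x => f x * μ.h x) μ.m

/-- continuous with compact support -/
def Cc (f : E d → ℂ) : Prop := Continuous f ∧ HasCompactSupport f

/-- the character attached to `x` -/
noncomputable def ch (x t : E d) : ℂ := exp (2 * Real.pi * I * (inner ℝ x t : ℝ))

/-- inverse Fourier transform of a function -/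
noncomputable def chk (g : E d → ℂ) (x : E d) : ℂ := ∫ t, g t * ch x t

/-- `ν'` is the Fourier transform of `ν`, tested on all compactly supported functions -/
def FT (ν ν' : RM d) : Prop := ∀ g, Cc g → Int ν' (chk g) ∧ act ν g = act ν' (chk g)

/-- vague convergence to the functional `L` -/
def Vague (ν : ℕ → RM d) (L : (E d → ℂ) → ℂ) : Prop :=
  ∀ f, Cc f → Tendsto (fun n => act (ν n) f) atTop (𝓝 (L f))

open Polynomial in
theorem poly (M : ℕ) (δ : ℝ) (hδ : 0 < δ) : ∃ p : ℂ[X], (∀ k < M, p.coeff k = if k = 0 then 1 else 0) ∧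
    ∀ z : ℂ, ‖1 - z‖ ≤ 1 / 2 → ‖p.eval z‖ ≤ δ := by
  have c : Continuous fun u : ℂ => 1 - (1 - u) ^ M := by fun_prop
  obtain ⟨η, hη, h⟩ := Metric.continuousAt_iff.1 (c.continuousAt (x := 0)) δ hδ
  obtain ⟨N, hN⟩ := exists_pow_lt_of_lt_one hη (show (1 / 2 : ℝ) < 1 by norm_num)
  refine ⟨1 - (1 - (1 - X) ^ N) ^ M, fun k hk => ?_, fun z hz => ?_⟩
  · have : (X : ℂ[X]) ∣ 1 - (1 - X) ^ N := by
      rw [X_dvd_iff, coeff_zero_eq_eval_zero]; simp
    rw [coeff_sub, X_pow_dvd_iff.1 (pow_dvd_pow_of_dvd this M) k hk, coeff_one, sub_zero]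
  · have := h (x := (1 - z) ^ N) (by
      rw [dist_zero_right, norm_pow]; exact (pow_le_pow_left₀ (norm_nonneg _) hz N).trans_lt hN)
    simpa using this.le

theorem cch (x : E d) : Continuous (ch x) := by unfold ch; fun_prop

theorem chp (k : ℕ) (x t : E d) : ch ((k : ℝ) • x) t = ch x t ^ k := by
  rw [ch, ch, ← exp_nat_mul, inner_smul_left]; congr 1; simp; ring

noncomputable def ν (p : Polynomial ℂ) (w : E d) : RM d :=
  ⟨volume, fun t => p.eval (ch w t), inferInstance,
    (p.continuous.comp (cch w)).locallyIntegrable⟩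

noncomputable def dm (p : Polynomial ℂ) (w : E d) : Measure (E d) :=
  ∑ k ∈ range (p.natDegree + 1), Measure.dirac ((k : ℝ) • w)

theorem di (p : Polynomial ℂ) (w : E d) (f : E d → ℂ) : Integrable f (dm p w) :=
  integrable_finset_sum_measure.2 fun _ _ => integrable_dirac (by simp)

noncomputable def ν' (p : Polynomial ℂ) (w : E d) : RM d :=
  ⟨dm p w, fun x => p.coeff ⌊inner ℝ x w / ‖w‖ ^ 2⌋₊, by unfold dm; infer_instance,
    (di p w _).locallyIntegrable⟩

theorem aν' (p : Polynomial ℂ) (w : E d) (hw : w ≠ 0) (f : E d → ℂ) :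
    act (ν' p w) f = ∑ k ∈ range (p.natDegree + 1), f ((k : ℝ) • w) * p.coeff k := by
  rw [act]
  show ∫ x, f x * p.coeff ⌊inner ℝ x w / ‖w‖ ^ 2⌋₊ ∂dm p w = _
  rw [dm, integral_finset_sum_measure fun _ _ => integrable_dirac enorm_lt_top]
  refine sum_congr rfl fun k _ => ?_
  have : ‖w‖ ≠ 0 := by simpa
  rw [integral_dirac, inner_smul_left, real_inner_self_eq_norm_sq]; simp [this]

theorem ft (p : Polynomial ℂ) (w : E d) (hw : w ≠ 0) : FT (ν p w) (ν' p w) := fun g hg => by
  refine ⟨di p w _, ?_⟩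
  rw [aν' p w hw, act]
  show ∫ t, g t * p.eval (ch w t) = _
  simp only [chk, ← integral_mul_const]
  rw [← integral_finsetSum]
  · congr 1; funext t
    rw [Polynomial.eval_eq_sum_range, mul_sum]
    exact sum_congr rfl fun k _ => by rw [chp]; ring
  · exact fun k _ => ((hg.1.mul (cch _)).integrable_of_hasCompactSupport hg.2.mul_right).mul_const _

theorem result (d : ℕ) (hd : 1 ≤ d) : ∃ (ν ν' : ℕ → RM d) (μ : RM d), (∀ n, FT (ν n) (ν' n)) ∧
    Vague ν (fun _ => 0) ∧ Vague ν' (act μ) ∧ ∃ f, Cc f ∧ act μ f ≠ 0 := by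
  let v : E d := EuclideanSpace.single ⟨0, hd⟩ 1
  have hv : ‖v‖ = 1 := by simp [v]
  let w : ℕ → E d := fun n => (1 / (16 * ((n : ℝ) + 1))) • v
  have nw : ∀ n, ‖w n‖ = 1 / (16 * ((n : ℝ) + 1)) := fun n => by
    rw [norm_smul, hv, mul_one, Real.norm_eq_abs, abs_of_pos (by positivity)]
  have w0 : ∀ n, w n ≠ 0 := fun n => norm_pos_iff.1 (by rw [nw]; positivity)
  choose p h1 h2 using fun n : ℕ => poly (16 * (n + 1) ^ 2) (1 / ((n : ℝ) + 1)) (by positivity)
  have a : ∀ f, act (ν' 1 v) f = f 0 := fun f => by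
    rw [aν' 1 v (norm_pos_iff.1 (by rw [hv]; norm_num))]; simp
  have sup : ∀ f : E d → ℂ, Cc f → ∀ᶠ n : ℕ in atTop, ∀ x : E d, (n : ℝ) + 1 ≤ ‖x‖ → f x = 0 := by
    intro f hf
    obtain ⟨R, hR⟩ := hf.2.isCompact.isBounded.exists_norm_le
    filter_upwards [tendsto_natCast_atTop_atTop.eventually_ge_atTop R] with n hn x hx
    by_contra h
    linarith [hR x (subset_tsupport _ h)]
  refine ⟨fun n => ν (p n) (w n), fun n => ν' (p n) (w n), ν' 1 v, fun n => ft _ _ (w0 n),
    fun f hf => ?_, fun f hf => ?_, ?_⟩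
  · have i := (hf.1.integrable_of_hasCompactSupport (μ := volume) hf.2).norm
    have t := tendsto_one_div_add_atTop_nhds_zero_nat.const_mul (∫ x, ‖f x‖)
    rw [mul_zero] at t
    refine squeeze_zero_norm' ?_ t
    filter_upwards [sup f hf] with n hn
    rw [← integral_mul_const]
    refine norm_integral_le_of_norm_le (i.mul_const _) (.of_forall fun x => ?_)
    rcases le_or_gt ((n : ℝ) + 1) ‖x‖ with h | h
    · simp [hn x h]
    rw [norm_mul]
    refine mul_le_mul_of_nonneg_left (h2 n _ ?_) (norm_nonneg _)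
    rw [norm_sub_rev, ch, show 2 * (Real.pi : ℂ) * I * (inner ℝ (w n) x : ℝ) =
      I * ((2 * Real.pi * inner ℝ (w n) x : ℝ) : ℂ) by push_cast; ring]
    refine Real.norm_exp_I_mul_ofReal_sub_one_le.trans ?_
    have b := abs_real_inner_le_norm (w n) x
    have c : ‖w n‖ * ‖x‖ ≤ 1 / 16 := by
      rw [nw, one_div, mul_inv, mul_assoc, ← one_div]
      refine mul_le_of_le_one_right (by norm_num) ?_
      rw [inv_mul_le_iff₀ (by positivity)]; linarith
    have := Real.pi_le_four; have := Real.pi_pos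
    rw [Real.norm_eq_abs, abs_mul, abs_of_pos (a := 2 * Real.pi) (by positivity)]
    nlinarith [abs_nonneg (inner ℝ (w n) x)]
  · rw [a]
    refine tendsto_const_nhds.congr' ?_
    filter_upwards [sup f hf] with n hn
    rw [aν' _ _ (w0 n), sum_eq_single 0]
    · simp [h1 n 0 (by positivity)]
    · intro k _ hk
      rcases lt_or_ge k (16 * (n + 1) ^ 2) with h | h
      · simp [h1 n k h, hk]
      · have : (16 * ((n : ℝ) + 1) ^ 2) ≤ k := by exact_mod_cast h
        rw [hn _ (by
          rw [norm_smul, nw, Real.norm_natCast, mul_one_div, le_div_iff₀ (by positivity)]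
          linarith), zero_mul]
    · simp
  · let b : ContDiffBump (0 : E d) := ⟨1, 2, one_pos, one_lt_two⟩
    refine ⟨fun x => (b x : ℂ), ⟨continuous_ofReal.comp b.continuous,
      b.hasCompactSupport.comp_left (g := ofReal) ofReal_zero⟩, ?_⟩
    rw [a, b.one_of_mem_closedBall (by simp [b])]; simp

end Pool.Agent.Results.MP_831e37_an.Exists
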